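import Pool.Agent.Helper69.QC.St

/-!
# Project QD part C (MP_d112a4_gt), module RED: thick points are near the orbit
-/

set_option autoImplicit false

open Complex MeasureTheory Set Filter Topology Metric
open scoped Real ComplexConjugate

namespace Pool.Agent.Helper38.QC

open Pool.Agent.Helper69.QC

private theorem id1 (a b w : ℂ) : normSq (a + w * conj b) - normSq (b + w * conj a)
    = (1 - normSq w) * (normSq a - normSq b) := by
  simp only [normSq_apply, add_re, add_im, mul_re, mul_im, conj_re, conj_im]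
  ring

private theorem id2 (α β : ℂ) : normSq (α + β) + normSq (I * (α - β))
    = 2 * (normSq α + normSq β) := by
  simp only [normSq_apply, add_re, add_im, mul_re, mul_im, sub_re, sub_im, I_re, I_im]
  ring

theorem cRED (rda : St_RDA) : St_RED := by
  intro ε hε
  have hε2 : 0 < ε ^ 2 := by positivity
  have hq1 : 1 / (1 + 4 * ε ^ 2) < 1 := by
    rw [div_lt_one (by positivity)]
    linarith
  refine ⟨Real.sqrt (1 / (1 + 4 * ε ^ 2)), Real.sqrt_nonneg _, ?_, ?_⟩
  · rw [Real.sqrt_lt' one_pos, one_pow]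
    exact hq1
  intro w hw
  obtain ⟨p, q, r, s, hdet, hsum⟩ := rda ε hε w hw
  have hw1 : ‖w‖ < 1 := hw.1
  have hwn : normSq w < 1 := by
    rw [← Complex.sq_norm]
    have := norm_nonneg w
    nlinarith
  have hdetR : (p : ℝ) * s - q * r = 1 := by exact_mod_cast hdet
  set lam : ℂ := gi p q with hlam
  set mu : ℂ := gi r s with hmu
  set a : ℂ := (lam - I * mu) / 2 with ha
  set b : ℂ := (lam + I * mu) / 2 with hb
  have hlab : lam = a + b := by rw [ha, hb]; ring
  have hmab : mu = I * (a - b) := by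
    have h1 : I * (a - b) = -(I * I) * mu := by rw [ha, hb]; ring
    rw [h1, I_mul_I, neg_neg, one_mul]
  have hconj2a : 2 * conj a = ((p + s : ℤ) : ℂ) + ((r - q : ℤ) : ℂ) * I := by
    have h1 : conj a = (conj lam + I * conj mu) / 2 := by
      rw [ha, map_div₀, map_sub, map_mul, conj_I, Complex.conj_ofNat]
      ring
    rw [h1, hlam, hmu]
    apply Complex.ext
    · simp [gi]
      ring
    · simp [gi]
      ring
  have h2b : -(2 * b) = ((s - p : ℤ) : ℂ) - ((q + r : ℤ) : ℂ) * I := by
    apply Complex.ext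
    · simp [hb, hlam, hmu, gi]
      ring
    · simp [hb, hlam, hmu, gi]
      ring
  have hab : normSq a - normSq b = 1 := by
    have h1 : normSq a - normSq b = (p : ℝ) * s - q * r := by
      simp [ha, hb, hlam, hmu, gi, normSq_apply]
      ring
    rw [h1, hdetR]
  clear_value lam mu
  set α : ℂ := a + w * conj b with hα
  set β : ℂ := b + w * conj a with hβ
  have hαβ : normSq α - normSq β = 1 - normSq w := by
    rw [hα, hβ, id1, hab, mul_one]
  have hl : lam + w * conj lam = α + β := by
    rw [hlab, map_add, hα, hβ]; ring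
  have hm : mu + w * conj mu = I * (α - β) := by
    rw [hmab, map_mul, map_sub, conj_I, hα, hβ]; ring
  rw [hl, hm, Complex.sq_norm, Complex.sq_norm, Complex.sq_norm, id2] at hsum
  -- the quotient
  have hb0 : 0 ≤ normSq β := normSq_nonneg β
  have hα0 : 0 < normSq α := by linarith
  have hαne : α ≠ 0 := normSq_pos.1 hα0
  have hbn0 : 0 ≤ normSq b := normSq_nonneg b
  have ha0 : 0 < normSq a := by linarith
  have hane : a ≠ 0 := normSq_pos.1 ha0
  have hcane : conj a ≠ 0 := by
    intro h
    exact hane ((map_eq_zero _).1 h)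
  have hba : ‖b‖ < ‖a‖ := by
    have h1 : ‖b‖ ^ 2 < ‖a‖ ^ 2 := by
      rw [Complex.sq_norm, Complex.sq_norm]; linarith
    exact lt_of_pow_lt_pow_left₀ 2 (norm_nonneg a) h1
  have hapos : 0 < ‖a‖ := norm_pos_iff.2 hane
  set t : ℂ := β / α with ht
  have htn : ‖t‖ ≤ Real.sqrt (1 / (1 + 4 * ε ^ 2)) := by
    apply Real.le_sqrt_of_sq_le
    rw [Complex.sq_norm, ht, normSq_div, div_le_div_iff₀ hα0 (by positivity)]
    have h1 : (1 - normSq w) * (1 / ε ^ 2 + 2) * ε ^ 2 = (1 - normSq w) * (1 + 2 * ε ^ 2) := by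
      field_simp
    have h2 : 2 * (normSq α + normSq β) * ε ^ 2 ≤ (1 - normSq w) * (1 + 2 * ε ^ 2) := by
      rw [← h1]
      exact mul_le_mul_of_nonneg_right hsum hε2.le
    rw [← hαβ] at h2
    nlinarith
  have htlt : ‖t‖ < 1 := by
    refine lt_of_le_of_lt htn ?_
    rw [Real.sqrt_lt' one_pos, one_pow]
    exact hq1
  have htβ : β = t * α := by rw [ht, div_mul_cancel₀ _ hαne]
  have hden : conj a - t * conj b ≠ 0 := by
    intro h
    have h1 : conj a = t * conj b := sub_eq_zero.1 h
    have h2 : ‖a‖ = ‖t‖ * ‖b‖ := by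
      have := congrArg norm h1
      rwa [norm_mul, RCLike.norm_conj, RCLike.norm_conj] at this
    have h3 : ‖t‖ * ‖b‖ ≤ 1 * ‖b‖ := mul_le_mul_of_nonneg_right htlt.le (norm_nonneg b)
    linarith
  have hwe : w * (conj a - t * conj b) = t * a - b := by
    have h1 : b + w * conj a = t * (a + w * conj b) := htβ
    linear_combination h1
  refine ⟨-b / conj a, ⟨s, -r, -q, p, ?_, ?_⟩, ?_, t * a / conj a, ?_, ?_⟩
  · linarith
  · have h1 : (((s + p : ℤ) : ℂ) + ((-q - -r : ℤ) : ℂ) * I) = 2 * conj a := by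
      rw [hconj2a]; push_cast; ring
    have h2 : (((s - p : ℤ) : ℂ) + ((-q + -r : ℤ) : ℂ) * I) = -(2 * b) := by
      rw [h2b]; push_cast; ring
    rw [h1, h2]
    field_simp
  · rw [mem_ball_zero_iff, norm_div, norm_neg, RCLike.norm_conj, div_lt_one hapos]
    exact hba
  · rw [norm_div, norm_mul, RCLike.norm_conj, mul_div_assoc, div_self hapos.ne', mul_one]
    exact htn
  · unfold mb
    have h1 : t * a / conj a + -b / conj a = (t * a - b) / conj a := by ring
    have h2 : 1 + conj (-b / conj a) * (t * a / conj a) = (conj a - t * conj b) / conj a := by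
      rw [map_div₀, map_neg, conj_conj]
      field_simp
      ring
    rw [h1, h2, div_div_div_cancel_right₀ hcane, eq_div_iff hden]
    exact hwe

end Pool.Agent.Helper38.QC
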